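import Pool.Agent.Lib.MP_9c5086_lc.GMain

set_option autoImplicit false

namespace Pool.Agent.Results.MP_9c5086_lc.StrongDichotomy

open Pool.Agent.Lib.MP_9c5086_lc

/-- For every graph `H`, LIST-`H`-COVER is in P for all input graphs, or it is NP-complete already
for simple input graphs. -/
theorem result {p q : ℕ} (H : Lib.MP_9c5086_lc.Graph (Fin p) (Fin q)) :
    LISTCOVERG H ∈ N68a2faeb.P ∨ NPComplete (LISTCOVERS H) :=
  dichotomy H

end Pool.Agent.Results.MP_9c5086_lc.StrongDichotomy
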